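import Pool.Agent.W345.VO.Stm

/-!
Decomposition of the span of the creation operators applied to vacuum vectors.
-/

set_option autoImplicit false

namespace Pool.Agent.W999.VO

open Pool.Agent.W345.VO

universe u

section

variable {M : Type u} [AddCommGroup M] [Module ℂ M]

theorem subset_PS (ρ : Rep M) (W : Set M) : W ⊆ ρ.PS W := by
  intro w hw
  unfold Rep.PS
  rw [SetLike.mem_coe, Submodule.mem_sInf]
  exact fun S hS => hS.1 hw

theorem PS_closed (ρ : Rep M) (W : Set M) (l : ℕ) (w : M) (hw : w ∈ ρ.PS W) :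
    ρ.h (-(l : ℤ) - 1) w ∈ ρ.PS W := by
  unfold Rep.PS at hw ⊢
  rw [Submodule.mem_sInf] at hw ⊢
  exact fun S hS => hS.2 l w (hw S hS)

theorem PS_le (ρ : Rep M) (W : Set M) (S : Submodule ℂ M) (h1 : W ⊆ S)
    (h2 : ∀ (l : ℕ) (w : M), w ∈ S → ρ.h (-(l : ℤ) - 1) w ∈ S) : ρ.PS W ≤ S :=
  sInf_le ⟨h1, h2⟩

theorem span_le_PS (ρ : Rep M) (W : Set M) : Submodule.span ℂ W ≤ ρ.PS W :=
  Submodule.span_le.2 (subset_PS ρ W)

/-- the pieces -/
noncomputable def pc (ρ : Rep M) (K : Module.End ℂ M) (W : Set M) (n : ℕ) : Submodule ℂ M :=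
  if n = 0 then Submodule.span ℂ W else ρ.PS W ⊓ K.eigenspace (n : ℂ)

theorem pc_mem {ρ : Rep M} {K : Module.End ℂ M} (hK0 : ∀ w, ρ.Om w → K w = 0) {W : Set M}
    (hW : ∀ w ∈ W, ρ.Om w) {n : ℕ} {x : M} (hx : x ∈ pc ρ K W n) :
    x ∈ ρ.PS W ∧ K x = (n : ℂ) • x := by
  unfold pc at hx
  split_ifs at hx with h
  · subst h
    refine ⟨span_le_PS ρ W hx, ?_⟩
    have h1 : Submodule.span ℂ W ≤ LinearMap.ker K :=
      Submodule.span_le.2 fun w hw => hK0 w (hW w hw)
    have h2 : K x = 0 := h1 hx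
    rw [h2, Nat.cast_zero, zero_smul]
  · exact ⟨hx.1, Module.End.mem_eigenspace_iff.1 hx.2⟩

theorem PS_le_iSup {ρ : Rep M} {K : Module.End ℂ M} (hK0 : ∀ w, ρ.Om w → K w = 0)
    (hK : ∀ (l : ℕ) (w : M), K (ρ.h (-(l : ℤ) - 1) w) =
      ρ.h (-(l : ℤ) - 1) (K w) + ((l : ℂ) + 1) • ρ.h (-(l : ℤ) - 1) w) {W : Set M}
    (hW : ∀ w ∈ W, ρ.Om w) : ρ.PS W ≤ ⨆ n, pc ρ K W n := by
  refine PS_le ρ W _ ?_ ?_
  · intro w hw
    refine Submodule.mem_iSup_of_mem 0 ?_
    unfold pc
    rw [if_pos rfl]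
    exact Submodule.subset_span hw
  · intro l w hw
    refine Submodule.iSup_induction (pc ρ K W)
      (motive := fun w => ρ.h (-(l : ℤ) - 1) w ∈ ⨆ n, pc ρ K W n) hw ?_ ?_ ?_
    · intro n x hx
      obtain ⟨h1, h2⟩ := pc_mem hK0 hW hx
      refine Submodule.mem_iSup_of_mem (n + l + 1) ?_
      unfold pc
      rw [if_neg (by omega)]
      refine ⟨PS_closed ρ W l x h1, ?_⟩
      rw [SetLike.mem_coe, Module.End.mem_eigenspace_iff, hK, h2, map_smul, ← add_smul]
      push_cast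
      congr 1
      ring
    · rw [map_zero]
      exact Submodule.zero_mem _
    · intro x y hx hy
      rw [map_add]
      exact Submodule.add_mem _ hx hy

end

theorem psk : S_PSK.{u} := by
  intro M _ _ ρ K hK0 hK W hW
  have hdec : ∀ x ∈ ρ.PS W, ∃ f : ℕ →₀ M, (∀ n, f n ∈ pc ρ K W n) ∧
      f.sum (fun _ z => z) = x := by
    intro x hx
    exact (Submodule.mem_iSup_iff_exists_finsupp _ _).1 (PS_le_iSup hK0 hK hW hx)
  refine ⟨?_, ?_, ?_, ?_⟩
  · intro x hx
    obtain ⟨f, hf, hs⟩ := hdec x hx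
    refine ⟨f, hs.symm, fun n => pc_mem hK0 hW (hf n), ?_⟩
    have := hf 0
    unfold pc at this
    rw [if_pos rfl] at this
    exact this
  · intro x hx hKx
    obtain ⟨f, hf, hs⟩ := hdec x hx
    have hf0 : f 0 ∈ Submodule.span ℂ W := by
      have := hf 0
      unfold pc at this
      rwa [if_pos rfl] at this
    have hK0' : K (f 0) = 0 := by
      have := (pc_mem hK0 hW (hf 0)).2
      rwa [Nat.cast_zero, zero_smul] at this
    have hind := Module.End.eigenspaces_iSupIndep K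
    have h1 : x - f 0 ∈ K.eigenspace 0 := by
      rw [Module.End.mem_eigenspace_iff, map_sub, hKx, hK0', sub_zero, zero_smul]
    have h2 : x - f 0 ∈ ⨆ (μ : ℂ) (_ : μ ≠ 0), K.eigenspace μ := by
      have h3 : x - f 0 = ∑ n ∈ f.support.erase 0, f n := by
        rw [← hs]
        unfold Finsupp.sum
        by_cases h4 : (0 : ℕ) ∈ f.support
        · rw [← Finset.add_sum_erase _ _ h4]
          abel
        · rw [Finset.erase_eq_of_notMem h4, Finsupp.notMem_support_iff.1 h4, sub_zero]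
      rw [h3]
      refine Submodule.sum_mem _ fun n hn => ?_
      have hn0 : (n : ℂ) ≠ 0 := Nat.cast_ne_zero.2 (Finset.ne_of_mem_erase hn)
      refine Submodule.mem_iSup_of_mem (n : ℂ) (Submodule.mem_iSup_of_mem hn0 ?_)
      exact Module.End.mem_eigenspace_iff.2 (pc_mem hK0 hW (hf n)).2
    have h3 : x - f 0 = 0 := Submodule.disjoint_def.1 (hind 0) _ h1 h2
    rw [sub_eq_zero.1 h3]
    exact hf0
  · intro x hx n hKx
    obtain ⟨f, hf, hs⟩ := hdec x hx
    have hind := Module.End.eigenspaces_iSupIndep K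
    have h1 : x ∈ K.eigenspace (-((n : ℂ) + 1)) := Module.End.mem_eigenspace_iff.2 hKx
    have h2 : x ∈ ⨆ (μ : ℂ) (_ : μ ≠ -((n : ℂ) + 1)), K.eigenspace μ := by
      rw [← hs]
      refine Submodule.sum_mem _ fun m _ => ?_
      have hm0 : (m : ℂ) ≠ -((n : ℂ) + 1) := by
        intro h3
        have h4 : ((m + n + 1 : ℕ) : ℂ) = 0 := by
          push_cast
          rw [h3]
          ring
        exact absurd (Nat.cast_eq_zero.1 h4) (by omega)
      refine Submodule.mem_iSup_of_mem (m : ℂ) (Submodule.mem_iSup_of_mem hm0 ?_)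
      exact Module.End.mem_eigenspace_iff.2 (pc_mem hK0 hW (hf m)).2
    exact Submodule.disjoint_def.1 (hind _) _ h1 h2
  · intro l x hx
    have h1 : ρ.PS W ≤ ρ.PS W ⊓ ⨅ l : ℕ, (ρ.PS W).comap (ρ.h ((l : ℤ) + 1)) := by
      refine PS_le ρ W _ ?_ ?_
      · intro w hw
        refine ⟨subset_PS ρ W hw, ?_⟩
        rw [SetLike.mem_coe, Submodule.mem_iInf]
        intro l
        rw [Submodule.mem_comap, hW w hw _ (by omega)]
        exact Submodule.zero_mem _
      · rintro l' w ⟨hw1, hw2⟩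
        rw [SetLike.mem_coe, Submodule.mem_iInf] at hw2
        refine ⟨PS_closed ρ W l' w hw1, ?_⟩
        rw [SetLike.mem_coe, Submodule.mem_iInf]
        intro l
        rw [Submodule.mem_comap]
        have h2 := ρ.hh ((l : ℤ) + 1) (-(l' : ℤ) - 1) w
        rw [sub_eq_iff_eq_add] at h2
        rw [h2]
        exact Submodule.add_mem _ (Submodule.smul_mem _ _ hw1)
          (PS_closed ρ W l' _ (hw2 l))
    have h2 := (h1 hx).2
    rw [SetLike.mem_coe, Submodule.mem_iInf] at h2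
    exact h2 l

end Pool.Agent.W999.VO
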